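import Pool.Agent.H385R7.BV6

/-!
# The primitive part of the variance of primes in arithmetic progressions: sharp upper bound

For a modulus `q` the variance of the primes up to `N` in the reduced residue classes modulo `q` is
`G(N,q) = φ(q)⁻¹ (∑_{χ ≠ χ₀} |ψ(N,χ)|² + |ψ(N,χ₀) - N|²)`, and Hooley's conjecture
`G(N,q) ∼ N log q` says that `|ψ(N,χ)|²` is `(1+o(1)) N log q` on average over `χ` modulo `q`.

We prove, without any hypothesis, the upper bound with the conjectured constant one for the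
primitive characters, in the logarithmic average over the modulus, in the full range
`N^(1/2+ε) < q < N/K`: for `K ≤ X`, `K X ≤ Y`, `K Y ≤ N ≤ X^(2-ε)`

`∑_{X < q ≤ Y} q⁻² ∑*_{χ mod q} |ψ(N,χ)|² ≤ (1+ε) N ∑_{X < q ≤ Y} q⁻² φ*(q) log q`,

where `φ*(q)` is the number of primitive characters modulo `q`.

Proof.  A large sieve inequality for the primitive characters with the sharp constant: the density of
the fractions `a/q`, `X < q ≤ Y`, weight `q⁻²`, near a real number `θ` is at most
`(1+ε) (6/π²) log (Y/X) + C`, except that it is smaller by a factor tending to zero when `θ` is very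
near a fraction with denominator at most `R = ρ N/Y` (plateaus), and the exponential sum over the
primes has a mass `N log R` there, which is subtracted from `∑ Λ(n)² = N log N`.
-/

namespace Pool.Agent.Results.MP_5d318d_nt.PrimitiveUpper

/-- `ψ(N, χ) = ∑_{n ≤ N} χ(n) Λ(n)` -/
noncomputable def psi (N : ℕ) {q : ℕ} (χ : DirichletCharacter ℂ q) : ℂ :=
  ∑ n ∈ Finset.Icc 1 N, χ (n : ZMod q) * (ArithmeticFunction.vonMangoldt n : ℂ)

/-- the number of primitive characters modulo `q` -/
noncomputable def phiStar (q : ℕ) : ℕ := Nat.card {χ : DirichletCharacter ℂ q // χ.IsPrimitive}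

theorem result : ∀ ε : ℝ, 0 < ε → ∃ K : ℝ, 1 ≤ K ∧ ∀ X Y N : ℕ,
    K ≤ X → K * X ≤ Y → K * Y ≤ N → (N : ℝ) ≤ (X : ℝ) ^ (2 - ε) →
    ∑ q ∈ Finset.Ioc X Y, (1 / (q : ℝ) ^ 2) *
        ∑ᶠ χ : {χ : DirichletCharacter ℂ q // χ.IsPrimitive}, ‖psi N χ.1‖ ^ 2 ≤
      (1 + ε) * N * ∑ q ∈ Finset.Ioc X Y, (1 / (q : ℝ) ^ 2) * ((phiStar q : ℝ) * Real.log q) := by
  intro ε hε
  obtain ⟨K, hK, h⟩ := H385.BV.main (min ε 1) (by positivity) (min_le_right _ _)
  refine ⟨K, hK, ?_⟩
  intro X Y N hX hXY hYN hNX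
  have hX1 : (1 : ℝ) ≤ X := hK.trans hX
  have h1 := h X Y N hX hXY hYN (hNX.trans (Real.rpow_le_rpow_of_exponent_le hX1 (by
    have := min_le_left ε 1
    linarith)))
  have h2 : 0 ≤ H385.BV.expd X Y := by
    unfold H385.BV.expd
    apply Finset.sum_nonneg
    intro q _
    have := Real.log_natCast_nonneg q
    positivity
  have h3 : (1 + min ε 1) * (N * H385.BV.expd X Y) ≤ (1 + ε) * (N * H385.BV.expd X Y) := by
    apply mul_le_mul_of_nonneg_right _ (by positivity)
    have := min_le_left ε 1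
    linarith
  calc _ ≤ _ := h1
    _ ≤ _ := h3
    _ = (1 + ε) * N * H385.BV.expd X Y := by ring

end Pool.Agent.Results.MP_5d318d_nt.PrimitiveUpper
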