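import Pool.Agent.H336R2.V.Main

open Finset

/-!
Unconditional lower bound for the variance `G(X,Q)` of primes in the reduced residue classes
modulo an individual modulus `Q`, for every modulus `Q ≥ X^(2/3+δ)`.
-/

namespace Pool.Agent.Results.MP_5d318d_nt.VarianceLower

/-- For every `ε > 0`, all `X` large in terms of `ε` and all integers `1 ≤ Q ≤ X`,
`G(X,Q) ≥ X (3/2 log Q - log X - ε log X)`. -/
theorem result (ε : ℝ) (hε : 0 < ε) : ∃ X₀ : ℝ, ∀ X : ℝ, X₀ ≤ X → ∀ Q : ℕ, 1 ≤ Q → (Q : ℝ) ≤ X →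
    X * (3 / 2 * Real.log Q - Real.log X - ε * Real.log X) ≤
      ∑ A ∈ (range Q).filter (fun A => A.Coprime Q),
        ((∑ n ∈ (Icc 1 ⌊X⌋₊).filter (fun n => n ≡ A [MOD Q]), ArithmeticFunction.vonMangoldt n)
          - X / Nat.totient Q) ^ 2 :=
  H336V.main ε hε

end Pool.Agent.Results.MP_5d318d_nt.VarianceLower
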